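import Pool.Agent.helper43.UT.SevenMain

/-!
# At least `n ^ (7 / 5) / 10 ^ 6` unit-area triangles in an arrangement without parallels
-/

set_option autoImplicit false

namespace Pool.Agent.Results.MP_92b251_co.SevenFifths

open Pool.Agent.helper43.UT

/-- For every `n ≥ 3` there are `n` lines in the plane, no two of them parallel, with at least
`n ^ (7 / 5) / 10 ^ 6` triangles of area `1`. -/
theorem result (n : ℕ) (hn : 3 ≤ n) : ∃ L : Finset (Set (ℝ × ℝ)),
    NoParallels L ∧ L.card = n ∧ (n : ℝ) ^ ((7 : ℝ) / 5) / 10 ^ 6 ≤ unitTriangles L :=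
  Seven.seven_fifths n hn

end Pool.Agent.Results.MP_92b251_co.SevenFifths
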